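import Pool.Agent.Q257.Bhargava

/-!
# The Bhargava factorial of the primes in prime triples: the conjectured ratio fails for `n = 28`

`29` belongs to no prime triple `(p, p + 2, p + 6)`. Hence the set `P3` of the primes in such triples lies in
the `28` invertible classes modulo `29`, two of the first `29` elements of every `29`-ordering of `P3` are
congruent modulo `29`, and `29` divides `28!` of `P3`. The primes meet all the `29` classes, so `29` does not
divide `28!` of the set of all primes. The conjectured value `3! w_2(28) w_3(28)` of the ratio is not divisible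
by `29` either.
-/

set_option autoImplicit false

namespace Pool.Agent.Results.MP_1b3ee4_nt.TripletRatioFails

open Finset Q257.Bh

/-- the set of all primes -/
def P : Set ℤ := {x | ∃ q : ℕ, q.Prime ∧ x = q}

/-- the set of the primes in the prime triples `(p, p + 2, p + 6)` -/
def P3 : Set ℤ := {x | ∃ p : ℕ, p.Prime ∧ (p + 2).Prime ∧ (p + 6).Prime ∧
  (x = p ∨ x = p + 2 ∨ x = p + 6)}

/-- the conjectured value of the ratio of the two factorials: `3! w_2(n) w_3(n)` for even `n`, and `2` for
odd `n` -/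
def ratio (n : ℕ) : ℕ := if Even n then Nat.factorial 3 * w 2 n * w 3 n else 2

/-- the first members of eleven triples -/
def T3 : Finset ℕ := {5, 11, 17, 41, 101, 107, 191, 227, 311, 347, 461}

/-- the thirty members of these triples -/
def S3 : Finset ℤ := T3.biUnion fun p => {(p : ℤ), (p : ℤ) + 2, (p : ℤ) + 6}

/-- twenty-nine primes, one in each class modulo `29` -/
def S1 : Finset ℕ := {2, 3, 5, 7, 11, 13, 17, 19, 23, 29, 37, 41, 43, 47, 53, 59, 67, 73, 79, 83, 97, 103, 107, 109, 113, 149, 151, 173, 317}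

lemma hS3 : ∀ s ∈ S3, s ∈ P3 := by
  intro s hs
  obtain ⟨p, hp, hs⟩ := mem_biUnion.1 hs
  have h : ∀ q ∈ T3, q.Prime ∧ (q + 2).Prime ∧ (q + 6).Prime := by
    unfold T3
    intro q hq
    simp only [mem_insert, mem_singleton] at hq
    rcases hq with rfl | rfl | rfl | rfl | rfl | rfl | rfl | rfl | rfl | rfl | rfl <;> norm_num
  simp only [mem_insert, mem_singleton] at hs
  exact ⟨p, (h p hp).1, (h p hp).2.1, (h p hp).2.2, hs⟩

lemma hS1 : ∀ s ∈ S1.image (fun q : ℕ => (q : ℤ)), s ∈ P := by
  intro s hs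
  obtain ⟨q, hq, rfl⟩ := mem_image.1 hs
  have h : ∀ q ∈ S1, q.Prime := by
    unfold S1
    intro q hq
    simp only [mem_insert, mem_singleton] at hq
    rcases hq with rfl | rfl | rfl | rfl | rfl | rfl | rfl | rfl | rfl | rfl | rfl | rfl | rfl | rfl | rfl | rfl | rfl | rfl | rfl | rfl | rfl | rfl | rfl | rfl | rfl | rfl | rfl | rfl | rfl <;> norm_num
  exact ⟨q, h q hq, rfl⟩

lemma cast_card (S : Finset ℕ) : (S.image (fun q : ℕ => (q : ℤ))).card = S.card :=
  card_image_of_injective _ Nat.cast_injective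

lemma hinj : ∀ s ∈ S1.image (fun q : ℕ => (q : ℤ)), ∀ t ∈ S1.image (fun q : ℕ => (q : ℤ)),
    ((29 : ℕ) : ℤ) ∣ s - t → s = t := by
  intro s hs t ht h
  obtain ⟨q, hq, rfl⟩ := mem_image.1 hs
  obtain ⟨r, hr, rfl⟩ := mem_image.1 ht
  have h2 : ∀ q ∈ S1, ∀ r ∈ S1, q % 29 = r % 29 → q = r := by decide
  have h3 : (r : ℤ) ≡ (q : ℤ) [ZMOD (29 : ℕ)] := (Int.modEq_iff_dvd).2 h
  have h4 : r ≡ q [MOD 29] := (Int.natCast_modEq_iff).1 h3
  have h5 : q % 29 = r % 29 := h4.symm
  rw [h2 q hq r hr h5]

lemma hP3 : ∀ x ∈ P3, ¬ ((29 : ℕ) : ℤ) ∣ x := by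
  rintro x ⟨p, hp, hp2, hp6, h⟩ hd
  have key : ∀ q : ℕ, q.Prime → ((29 : ℕ) : ℤ) ∣ (q : ℤ) → q = 29 := fun q hq h =>
    ((Nat.prime_dvd_prime_iff_eq (by norm_num) hq).1 (Int.natCast_dvd_natCast.1 h)).symm
  rcases h with rfl | rfl | rfl
  · have := key p hp hd
    subst this
    norm_num at hp6
  · have := key (p + 2) hp2 (by exact_mod_cast hd)
    obtain rfl : p = 27 := by omega
    norm_num at hp
  · have := key (p + 6) hp6 (by exact_mod_cast hd)
    obtain rfl : p = 23 := by omega
    norm_num at hp2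

/-- **Theorem.** The Bhargava factorials `28!` of the set `P3` of the primes in prime triples and of the set of
all primes are defined, `29` divides the first one and not the second one, and the first one is not
`ratio 28 = 3! w_2(28) w_3(28)` times the second one. -/
theorem result : (∃ f, IsFactorial P3 28 f) ∧ (∃ g, IsFactorial P 28 g) ∧
    ∀ f g : ℕ, IsFactorial P3 28 f → IsFactorial P 28 g →
      29 ∣ f ∧ ¬ 29 ∣ g ∧ f ≠ ratio 28 * g := by
  refine ⟨exists_factorial 28 _ hS3 (by decide),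
    exists_factorial 28 _ hS1 (by rw [cast_card]; decide), fun f g hf hg => ?_⟩
  have h29 : Nat.Prime 29 := by norm_num
  have h1 : 29 ∣ f := dvd_factorial h29 hf hP3 (by norm_num)
  have h2 : ¬ 29 ∣ g := not_dvd_factorial h29 hg _ hS1 (by rw [cast_card]; decide) hinj
  refine ⟨h1, h2, fun h => ?_⟩
  have h3 : ratio 28 = 6 * w 2 28 * w 3 28 := by
    unfold ratio
    rw [if_pos (by decide)]
    rfl
  rw [h, h3, Nat.Prime.dvd_mul h29, Nat.Prime.dvd_mul h29, Nat.Prime.dvd_mul h29] at h1
  rcases h1 with ((h1 | h1) | h1) | h1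
  · norm_num at h1
  · exact not_dvd_w h29 Nat.prime_two (by norm_num) h1
  · exact not_dvd_w h29 Nat.prime_three (by norm_num) h1
  · exact h2 h1

end Pool.Agent.Results.MP_1b3ee4_nt.TripletRatioFails
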